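import Pool.Agent.Helper67.FacTrA
set_option autoImplicit false
set_option linter.unusedSectionVars false
open scoped ComplexOrder InnerProductSpace

namespace Pool.Agent.Helper67.FacTrLib

variable {H : Type} [NormedAddCommGroup H] [InnerProductSpace ℂ H] [CompleteSpace H]

/-- positive part of `a - s` -/
noncomputable def pp (a : H →L[ℂ] H) (s : ℝ) : H →L[ℂ] H := cfc (fun t : ℝ => max (t - s) 0) a

/-- negative part of `a - s` -/
noncomputable def nn (a : H →L[ℂ] H) (s : ℝ) : H →L[ℂ] H := cfc (fun t : ℝ => max (s - t) 0) a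

/-- square root of the positive part of `a - s` -/
noncomputable def zp (a : H →L[ℂ] H) (s : ℝ) : H →L[ℂ] H :=
  cfc (fun t : ℝ => Real.sqrt (max (t - s) 0)) a

/-- square root of the negative part of `a - s` -/
noncomputable def zn (a : H →L[ℂ] H) (s : ℝ) : H →L[ℂ] H :=
  cfc (fun t : ℝ => Real.sqrt (max (s - t) 0)) a

theorem zp_sq (a : H →L[ℂ] H) (s : ℝ) : star (zp a s) * zp a s = pp a s := by
  have h1 : star (zp a s) = zp a s := (cfc_predicate (p := IsSelfAdjoint) _ a)
  rw [h1, zp, pp, ← cfc_mul _ _ a (by fun_prop) (by fun_prop)]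
  congr 1
  ext t
  exact Real.mul_self_sqrt (le_max_right _ _)

theorem zn_sq (a : H →L[ℂ] H) (s : ℝ) : star (zn a s) * zn a s = nn a s := by
  have h1 : star (zn a s) = zn a s := (cfc_predicate (p := IsSelfAdjoint) _ a)
  rw [h1, zn, nn, ← cfc_mul _ _ a (by fun_prop) (by fun_prop)]
  congr 1
  ext t
  exact Real.mul_self_sqrt (le_max_right _ _)

theorem pp_sub_nn {a : H →L[ℂ] H} (ha : IsSelfAdjoint a) (s : ℝ) :
    pp a s - nn a s = a - ((s : ℝ) : ℂ) • (1 : H →L[ℂ] H) := by
  rw [pp, nn, ← cfc_sub _ _ a (by fun_prop) (by fun_prop)]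
  have h1 : (fun t : ℝ => max (t - s) 0 - max (s - t) 0) = fun t => t - s := by
    ext t
    rcases le_total t s with h | h
    · rw [max_eq_right (by linarith), max_eq_left (by linarith)]; ring
    · rw [max_eq_left (by linarith), max_eq_right (by linarith)]; ring
  rw [h1, cfc_sub (fun t : ℝ => t) (fun _ => s) a (by fun_prop) (by fun_prop), cfc_id' ℝ a,
    cfc_const s a]
  rw [Algebra.algebraMap_eq_smul_one]
  rfl

theorem nn_mul_pp (a : H →L[ℂ] H) (s : ℝ) : nn a s * pp a s = 0 := by
  rw [pp, nn, ← cfc_mul _ _ a (by fun_prop) (by fun_prop)]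
  have h1 : (fun t : ℝ => max (s - t) 0 * max (t - s) 0) = fun t => 0 := by
    ext t
    rcases le_total t s with h | h
    · rw [max_eq_right (a := t - s) (by linarith)]; ring
    · rw [max_eq_right (a := s - t) (by linarith)]; ring
  rw [h1]
  exact cfc_const_zero ℝ a

theorem pp_factor (a : H →L[ℂ] H) {s s' : ℝ} (h : s' < s) :
    ∃ g : H →L[ℂ] H, pp a s = pp a s' * g := by
  refine ⟨cfc (fun t : ℝ => max (t - s) 0 / max (t - s') (s - s')) a, ?_⟩
  have hpos : ∀ t : ℝ, max (t - s') (s - s') ≠ 0 := by
    intro t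
    have : 0 < max (t - s') (s - s') := lt_max_of_lt_right (by linarith)
    exact this.ne'
  have hc : ContinuousOn (fun t : ℝ => max (t - s) 0 / max (t - s') (s - s')) (spectrum ℝ a) := by
    apply Continuous.continuousOn
    exact Continuous.div (by fun_prop) (by fun_prop) hpos
  rw [pp, pp, ← cfc_mul _ _ a (by fun_prop) hc]
  congr 1
  ext t
  rcases le_total t s with h1 | h1
  · rw [max_eq_right (a := t - s) (by linarith)]; simp
  · rw [max_eq_left (a := t - s') (by linarith), max_eq_left (a := t - s') (b := s - s') (by linarith)]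
    field_simp [show t - s' ≠ 0 by intro h2; linarith]

/-- the closure of the range of the positive part -/
noncomputable def KK (a : H →L[ℂ] H) (s : ℝ) : Submodule ℂ H :=
  (LinearMap.range ((pp a s : H →L[ℂ] H) : H →ₗ[ℂ] H)).topologicalClosure

instance (a : H →L[ℂ] H) (s : ℝ) : (KK a s).HasOrthogonalProjection := by
  have : CompleteSpace (KK a s) := (Submodule.isClosed_topologicalClosure _).completeSpace_coe
  infer_instance

/-- the spectral projection -/
noncomputable def qq (a : H →L[ℂ] H) (s : ℝ) : H →L[ℂ] H := (KK a s).starProjection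

theorem pp_mem (a : H →L[ℂ] H) (s : ℝ) (x : H) : pp a s x ∈ KK a s :=
  Submodule.le_topologicalClosure _ ⟨x, rfl⟩

theorem KK_le (a : H →L[ℂ] H) (s : ℝ) {K : Submodule ℂ H} (hK : IsClosed (K : Set H))
    (h : ∀ x, pp a s x ∈ K) : KK a s ≤ K := by
  apply Submodule.topologicalClosure_minimal _ _ hK
  rintro _ ⟨x, rfl⟩
  exact h x

theorem qq_proj (a : H →L[ℂ] H) (s : ℝ) : IsStarProjection (qq a s) :=
  isStarProjection_starProjection

theorem qq_pp (a : H →L[ℂ] H) (s : ℝ) : qq a s * pp a s = pp a s := by
  ext x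
  exact Submodule.starProjection_eq_self_iff.2 (pp_mem a s x)

theorem nn_qq (a : H →L[ℂ] H) (s : ℝ) : nn a s * qq a s = 0 := by
  have h1 : KK a s ≤ LinearMap.ker ((nn a s : H →L[ℂ] H) : H →ₗ[ℂ] H) := by
    apply KK_le
    · exact (nn a s).isClosed_ker
    · intro x
      have := congrArg (fun T : H →L[ℂ] H => T x) (nn_mul_pp a s)
      exact this
  ext x
  exact h1 (Submodule.starProjection_apply_mem _ x)

theorem qq_nn (a : H →L[ℂ] H) (s : ℝ) : qq a s * nn a s = 0 := by
  have h1 : star (nn a s) = nn a s := (cfc_predicate (p := IsSelfAdjoint) _ a)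
  have h2 := congrArg star (nn_qq a s)
  rwa [star_mul, star_zero, h1, (qq_proj a s).isSelfAdjoint.star_eq] at h2

theorem qq_mono (a : H →L[ℂ] H) {s s' : ℝ} (h : s' ≤ s) : qq a s' * qq a s = qq a s := by
  rcases h.eq_or_lt with rfl | h
  · exact (qq_proj a s').isIdempotentElem.eq
  · obtain ⟨g, hg⟩ := pp_factor a h
    have h1 : KK a s ≤ KK a s' := by
      apply KK_le
      · exact Submodule.isClosed_topologicalClosure _
      · intro x
        rw [hg]
        exact pp_mem a s' (g x)
    ext x
    exact Submodule.starProjection_eq_self_iff.2 (h1 (Submodule.starProjection_apply_mem _ x))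

/-- everything in sight commutes with everything commuting with `a` -/
theorem cfc_cc {a : H →L[ℂ] H} (f : ℝ → ℝ) {b : H →L[ℂ] H} (hb : Commute a b) :
    Commute (cfc f a) b := by
  by_cases ha : IsSelfAdjoint a
  · exact hb.cfc_real f
  · rw [cfc_apply_of_not_predicate a ha]; exact Commute.zero_left _

theorem qq_comm {a : H →L[ℂ] H} (ha : IsSelfAdjoint a) (s : ℝ) {b : H →L[ℂ] H}
    (hb : Commute a b) : Commute (qq a s) b := by
  have h1 : qq a s ∈ Set.centralizer {c : H →L[ℂ] H | Commute a c} := by
    apply proj_P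
    · intro c hc
      have hc' : Commute a c := hc
      have := hc'.star_star
      rw [ha.star_eq] at this
      exact this
    · intro c hc x hx
      have h2 : KK a s ≤ (KK a s).comap (c : H →ₗ[ℂ] H) := by
        apply KK_le
        · exact (Submodule.isClosed_topologicalClosure _).preimage c.continuous
        · intro y
          have h3 : Commute (pp a s) c := cfc_cc _ hc
          have h4 := congrArg (fun T : H →L[ℂ] H => T y) h3.eq
          have h5 : pp a s (c y) = c (pp a s y) := h4
          show c (pp a s y) ∈ KK a s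
          rw [← h5]
          exact pp_mem a s _
      exact h2 hx
  exact commute_of_mem h1 hb

end Pool.Agent.Helper67.FacTrLib
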