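import Pool.Agent.Helper67.FacTr
set_option autoImplicit false
set_option linter.unusedSectionVars false
set_option linter.unusedSimpArgs false
open scoped ComplexOrder InnerProductSpace

namespace Pool.Agent.Helper67.FacTrLib

section alg
variable {B : Type} [Ring B] [Algebra ℂ B]

/-- average over the Pauli group generated by two symmetries -/
noncomputable def EE (u w x : B) : B :=
  (1/4 : ℂ) • (x + u * x * u + w * x * w + (u * w) * x * (w * u))

theorem EE_comm_u {u w : B} (hu : u * u = 1) (hw : w * w = 1) (huw : w * u = - (u * w)) (x : B) :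
    Commute u (EE u w x) := by
  have h1 : ∀ y : B, u * (u * y) = y := fun y => by rw [← mul_assoc, hu, one_mul]
  have h2 : ∀ y : B, w * (w * y) = y := fun y => by rw [← mul_assoc, hw, one_mul]
  have h3 : ∀ y : B, w * (u * y) = - (u * (w * y)) := fun y => by
    rw [← mul_assoc, huw, neg_mul, mul_assoc]
  show u * EE u w x = EE u w x * u
  unfold EE
  simp only [mul_smul_comm, smul_mul_assoc, mul_add, add_mul, mul_assoc, hu, hw, huw, h1, h2, h3,
    mul_neg, neg_mul, neg_neg, mul_one, one_mul]
  congr 1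
  abel

theorem EE_comm_w {u w : B} (hu : u * u = 1) (hw : w * w = 1) (huw : w * u = - (u * w)) (x : B) :
    Commute w (EE u w x) := by
  have h1 : ∀ y : B, u * (u * y) = y := fun y => by rw [← mul_assoc, hu, one_mul]
  have h2 : ∀ y : B, w * (w * y) = y := fun y => by rw [← mul_assoc, hw, one_mul]
  have h3 : ∀ y : B, w * (u * y) = - (u * (w * y)) := fun y => by
    rw [← mul_assoc, huw, neg_mul, mul_assoc]
  show w * EE u w x = EE u w x * w
  unfold EE
  simp only [mul_smul_comm, smul_mul_assoc, mul_add, add_mul, mul_assoc, hu, hw, huw, h1, h2, h3,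
    mul_neg, neg_mul, neg_neg, mul_one, one_mul]
  congr 1
  abel

theorem EE_decomp {u w : B} (hu : u * u = 1) (hw : w * w = 1) (huw : w * u = - (u * w)) (x : B) :
    x = EE u w x + EE u w (x * u) * u + EE u w (x * w) * w + EE u w (x * (w * u)) * (u * w) := by
  have h1 : ∀ y : B, u * (u * y) = y := fun y => by rw [← mul_assoc, hu, one_mul]
  have h2 : ∀ y : B, w * (w * y) = y := fun y => by rw [← mul_assoc, hw, one_mul]
  have h3 : ∀ y : B, w * (u * y) = - (u * (w * y)) := fun y => by
    rw [← mul_assoc, huw, neg_mul, mul_assoc]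
  unfold EE
  simp only [mul_smul_comm, smul_mul_assoc, mul_add, add_mul, mul_assoc, hu, hw, huw, h1, h2, h3,
    mul_neg, neg_mul, neg_neg, mul_one, one_mul, smul_neg]
  module

end alg

variable {H : Type} [NormedAddCommGroup H] [InnerProductSpace ℂ H] [CompleteSpace H]
  {S : Set (H →L[ℂ] H)} {τ : (H →L[ℂ] H) →ₗ[ℂ] ℂ}

/-- a pair of anticommuting symmetries of `P = S'` -/
structure Pair (S : Set (H →L[ℂ] H)) (u w : H →L[ℂ] H) : Prop where
  memu : u ∈ Set.centralizer S
  memw : w ∈ Set.centralizer S
  su : star u = u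
  sw : star w = w
  uu : u * u = 1
  ww : w * w = 1
  uw : w * u = - (u * w)

theorem mem_ins {u w a : H →L[ℂ] H} : a ∈ Set.centralizer (insert u (insert w S)) ↔
    Commute u a ∧ Commute w a ∧ a ∈ Set.centralizer S := by
  simp only [Set.mem_centralizer_iff, Set.mem_insert_iff, forall_eq_or_imp]
  rfl

theorem Pair.EE_mem {u w : H →L[ℂ] H} (hp : Pair S u w) {x : H →L[ℂ] H}
    (hx : x ∈ Set.centralizer S) : EE u w x ∈ Set.centralizer (insert u (insert w S)) := by
  rw [mem_ins]
  refine ⟨EE_comm_u hp.uu hp.ww hp.uw x, EE_comm_w hp.uu hp.ww hp.uw x, ?_⟩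
  unfold EE
  refine smul_P _ (add_P (add_P (add_P hx ?_) ?_) ?_)
  · exact mul_P (mul_P hp.memu hx) hp.memu
  · exact mul_P (mul_P hp.memw hx) hp.memw
  · exact mul_P (mul_P (mul_P hp.memu hp.memw) hx) (mul_P hp.memw hp.memu)

theorem FacTr.step (h : FacTr S τ) {u w : H →L[ℂ] H} (hp : Pair S u w) :
    FacTr (insert u (insert w S)) τ where
  starS := by
    intro s hs
    simp only [Set.mem_insert_iff] at hs ⊢
    rcases hs with rfl | rfl | hs
    · left; exact hp.su
    · right; left; exact hp.sw
    · right; right; exact h.starS s hs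
  factor := by
    intro z hz hc
    rw [mem_ins] at hz
    refine h.factor z hz.2.2 (fun x hx => ?_)
    have h1 := hc _ (hp.EE_mem hx)
    have h2 := hc _ (hp.EE_mem (mul_P hx hp.memu))
    have h3 := hc _ (hp.EE_mem (mul_P hx hp.memw))
    have h4 := hc _ (hp.EE_mem (mul_P hx (mul_P hp.memw hp.memu)))
    have hzu : Commute z u := hz.1.symm
    have hzw : Commute z w := hz.2.1.symm
    have c1 : Commute z (EE u w x) := h1
    have c2 : Commute z (EE u w (x * u)) := h2
    have c3 : Commute z (EE u w (x * w)) := h3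
    have c4 : Commute z (EE u w (x * (w * u))) := h4
    have : Commute z (EE u w x + EE u w (x * u) * u + EE u w (x * w) * w +
        EE u w (x * (w * u)) * (u * w)) :=
      ((c1.add_right (c2.mul_right hzu)).add_right (c3.mul_right hzw)).add_right
        (c4.mul_right (hzu.mul_right hzw))
    rw [← EE_decomp hp.uu hp.ww hp.uw x] at this
    exact this
  one := h.one
  comm := fun x hx y hy => h.comm x (mem_ins.1 hx).2.2 y (mem_ins.1 hy).2.2
  nonneg := fun x hx => h.nonneg x (mem_ins.1 hx).2.2
  faith := fun x hx => h.faith x (mem_ins.1 hx).2.2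

theorem Pair.inf {u w : H →L[ℂ] H} (hp : Pair S u w)
    (hinf : ¬ FiniteDimensional ℂ (Submodule.span ℂ (Set.centralizer S))) :
    ¬ FiniteDimensional ℂ
      (Submodule.span ℂ (Set.centralizer (insert u (insert w S)))) := by
  intro hfin
  apply hinf
  set V := Submodule.span ℂ (Set.centralizer (insert u (insert w S))) with hV
  have hle : Submodule.span ℂ (Set.centralizer S) ≤
      ((V ⊔ V.map (LinearMap.mulRight ℂ u)) ⊔ V.map (LinearMap.mulRight ℂ w)) ⊔
        V.map (LinearMap.mulRight ℂ (u * w)) := by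
    rw [Submodule.span_le]
    intro x hx
    rw [SetLike.mem_coe, EE_decomp hp.uu hp.ww hp.uw x]
    have hm : ∀ y ∈ Set.centralizer S, EE u w y ∈ V :=
      fun y hy => Submodule.subset_span (hp.EE_mem hy)
    refine Submodule.add_mem_sup (Submodule.add_mem_sup (Submodule.add_mem_sup (hm _ hx) ?_) ?_) ?_
    · exact ⟨_, hm _ (mul_P hx hp.memu), rfl⟩
    · exact ⟨_, hm _ (mul_P hx hp.memw), rfl⟩
    · exact ⟨_, hm _ (mul_P hx (mul_P hp.memw hp.memu)), rfl⟩
  have i1 : FiniteDimensional ℂ V := hfin
  exact Submodule.finiteDimensional_of_le hle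

end Pool.Agent.Helper67.FacTrLib
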