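import Pool.Agent.Helper19.GAv
import Pool.Agent.Helper67.Gam.Step
import Pool.Agent.Helper67.Gam.Spec
set_option autoImplicit false
set_option linter.unusedSectionVars false
open scoped ComplexOrder InnerProductSpace

namespace Pool.Agent.Helper67.FacTrLib

open Pool.Agent.Helper19.Gam

/-- the hypotheses of the frozen statement on a von Neumann algebra with a trace -/
structure VN2 {H : Type} [NormedAddCommGroup H] [InnerProductSpace ℂ H] [CompleteSpace H]
    (N : VonNeumannAlgebra H) (τ : (H →L[ℂ] H) →ₗ[ℂ] ℂ) : Prop where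
  factor : ∀ z : H →L[ℂ] H, z ∈ N → (∀ x : H →L[ℂ] H, x ∈ N → z * x = x * z) →
    ∃ c : ℂ, z = c • (1 : H →L[ℂ] H)
  inf : ¬ FiniteDimensional ℂ (Submodule.span ℂ (N : Set (H →L[ℂ] H)))
  one : τ 1 = 1
  comm : ∀ x : H →L[ℂ] H, x ∈ N → ∀ y : H →L[ℂ] H, y ∈ N → τ (x * y) = τ (y * x)
  nonneg : ∀ x : H →L[ℂ] H, x ∈ N → 0 ≤ τ (star x * x)
  faith : ∀ x : H →L[ℂ] H, x ∈ N → τ (star x * x) = 0 → x = 0

section
variable {H : Type} [NormedAddCommGroup H] [InnerProductSpace ℂ H] [CompleteSpace H]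
  {N : VonNeumannAlgebra H} {τ : (H →L[ℂ] H) →ₗ[ℂ] ℂ}
  {A : Type} [CStarAlgebra A] (φ : A →⋆ₐ[ℂ] (H →L[ℂ] H))

/-- the commutant of `N` together with a list of elements -/
def SL (N : VonNeumannAlgebra H) (φ : A →⋆ₐ[ℂ] (H →L[ℂ] H)) : List A → Set (H →L[ℂ] H)
  | [] => Set.centralizer (N : Set (H →L[ℂ] H))
  | (s :: l) => insert (φ s) (SL N φ l)

theorem mem_SL {l : List A} {a : A} (hN : ∀ a, φ a ∈ N) (hinj : Function.Injective φ) :
    φ a ∈ Set.centralizer (SL N φ l) ↔ CL l a := by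
  induction l with
  | nil =>
    simp only [SL, VonNeumannAlgebra.centralizer_centralizer, SetLike.mem_coe, hN, true_iff]
    intro s hs; simp at hs
  | cons s l ih =>
    have h1 : φ a ∈ Set.centralizer (insert (φ s) (SL N φ l)) ↔
        Commute (φ s) (φ a) ∧ φ a ∈ Set.centralizer (SL N φ l) := by
      simp only [Set.mem_centralizer_iff, Set.mem_insert_iff, forall_eq_or_imp]
      rfl
    have h2 : Commute (φ s) (φ a) ↔ Commute s a := by
      constructor
      · intro h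
        apply hinj
        rw [map_mul, map_mul]; exact h
      · intro h; exact h.map φ
    rw [SL, h1, h2, ih]
    simp [CL]

theorem SL_sub {l : List A} {x : H →L[ℂ] H} (hx : x ∈ Set.centralizer (SL N φ l)) : x ∈ N := by
  induction l with
  | nil =>
    have := VonNeumannAlgebra.centralizer_centralizer N
    rw [← SetLike.mem_coe, ← this]
    exact hx
  | cons s l ih =>
    apply ih
    exact Set.centralizer_subset (Set.subset_insert _ _) hx

theorem facTr_SL (h : VN2 N τ) (hN : ∀ a, φ a ∈ N) (hinj : Function.Injective φ)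
    {l : List A} (hl : PW l) : FacTr (SL N φ l) τ ∧
      ¬ FiniteDimensional ℂ (Submodule.span ℂ (Set.centralizer (SL N φ l))) := by
  induction hl with
  | nil =>
    have hcc : Set.centralizer (SL N φ []) = (N : Set (H →L[ℂ] H)) :=
      VonNeumannAlgebra.centralizer_centralizer N
    refine ⟨⟨?_, ?_, h.one, ?_, ?_, ?_⟩, ?_⟩
    · intro s hs
      exact star_P (fun t ht => star_mem ht) hs
    · rw [hcc]; exact h.factor
    · rw [hcc]; exact h.comm
    · rw [hcc]; exact h.nonneg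
    · rw [hcc]; exact h.faith
    · rw [hcc]; exact h.inf
  | @cons l u w hl hu hw huw hcu hcw ih =>
    have hp : Pair (SL N φ l) (φ u) (φ w) := by
      refine ⟨?_, ?_, ?_, ?_, ?_, ?_, ?_⟩
      · rw [mem_SL φ hN hinj]; exact hcu
      · rw [mem_SL φ hN hinj]; exact hcw
      · rw [← map_star, hu.sa]
      · rw [← map_star, hw.sa]
      · rw [← map_mul, hu.sq, map_one]
      · rw [← map_mul, hw.sq, map_one]
      · rw [← map_mul, ← map_mul, ← map_neg, huw, neg_neg]
    exact ⟨ih.1.step hp, hp.inf ih.2⟩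

theorem good_tr (h : VN2 N τ) (hN : ∀ a, φ a ∈ N) (hinj : Function.Injective φ) :
    Tr (τ ∘ₗ (φ : A →ₗ[ℂ] (H →L[ℂ] H))) where
  one := by
    show τ (φ 1) = 1
    rw [map_one, h.one]
  comm x y := by
    show τ (φ (x * y)) = τ (φ (y * x))
    rw [map_mul φ, map_mul φ]; exact h.comm _ (hN x) _ (hN y)
  nonneg x := by
    show 0 ≤ τ (φ (star x * x))
    rw [map_mul, map_star]; exact h.nonneg _ (hN x)
  faith x hx := by
    have h1 : τ (φ (star x * x)) = 0 := hx
    rw [map_mul, map_star] at h1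
    have h2 := h.faith _ (hN x) h1
    apply hinj
    rw [h2, map_zero]

theorem cc_mem {a x : H →L[ℂ] H} (ha : a ∈ N) (hx : ∀ b, Commute a b → Commute x b) : x ∈ N := by
  rw [← SetLike.mem_coe, ← VonNeumannAlgebra.centralizer_centralizer N, Set.mem_centralizer_iff]
  intro b hb
  exact (hx b ((Set.mem_centralizer_iff.1 hb) a ha)).symm

theorem good_spec (hN : ∀ a, φ a ∈ N) (hinj : Function.Injective φ)
    (hsurj : ∀ x : H →L[ℂ] H, x ∈ N → ∃ a, φ a = x) : HasSpec A := by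
  intro a ha
  have ha' : IsSelfAdjoint (φ a) := ha.map φ
  have hq : ∀ s, ∃ q : A, φ q = qq (φ a) s := fun s =>
    hsurj _ (cc_mem (hN a) (fun b hb => qq_comm ha' s hb))
  have hzp : ∀ s, ∃ q : A, φ q = zp (φ a) s := fun s =>
    hsurj _ (cc_mem (hN a) (fun b hb => cfc_cc _ hb))
  have hzn : ∀ s, ∃ q : A, φ q = zn (φ a) s := fun s =>
    hsurj _ (cc_mem (hN a) (fun b hb => cfc_cc _ hb))
  choose q hq using hq
  refine ⟨q, ?_, ?_, ?_, ?_⟩
  · intro s
    have h1 := qq_proj (φ a) s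
    rw [← hq] at h1
    constructor
    · apply hinj
      rw [map_mul]; exact h1.isIdempotentElem.eq
    · apply hinj
      rw [map_star]; exact h1.isSelfAdjoint.star_eq
  · intro s b hb
    have h1 : Commute (φ a) (φ b) := hb.map φ
    have h2 := qq_comm ha' s h1
    rw [← hq] at h2
    apply hinj
    rw [map_mul, map_mul]; exact h2
  · intro s
    obtain ⟨z, hz⟩ := hzp s
    obtain ⟨z', hz'⟩ := hzn s
    have e1 : φ (star z * z) = pp (φ a) s := by rw [map_mul, map_star, hz, zp_sq]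
    have e2 : φ (star z' * z') = nn (φ a) s := by rw [map_mul, map_star, hz', zn_sq]
    refine ⟨z, z', ?_, ?_, ?_⟩
    · apply hinj
      rw [map_sub φ (star z * z), e1, e2, pp_sub_nn ha', map_sub, map_smul, map_one]
    · apply hinj
      rw [map_mul φ (q s), e1, hq, qq_pp]
    · apply hinj
      rw [map_mul φ (q s), e2, hq, qq_nn, map_zero]
  · intro s s' hs
    apply hinj
    rw [map_mul, hq, hq, qq_mono _ hs]

theorem good_alg (h : VN2 N τ) (hN : ∀ a, φ a ∈ N) (hinj : Function.Injective φ)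
    (hsurj : ∀ x : H →L[ℂ] H, x ∈ N → ∃ a, φ a = x) :
    GoodAlg (τ ∘ₗ (φ : A →ₗ[ℂ] (H →L[ℂ] H))) where
  spec := good_spec φ hN hinj hsurj
  sub := by
    intro l hl e f he hf hep hfp hle
    have h1 := (facTr_SL φ h hN hinj hl).1
    obtain ⟨v, hv, hv1, hv2⟩ := h1.sub (φ e) (φ f) ((mem_SL φ hN hinj).2 he)
      ((mem_SL φ hN hinj).2 hf) (hep.map φ) (hfp.map φ) hle
    obtain ⟨v', rfl⟩ := hsurj v (SL_sub φ hv)
    refine ⟨v', (mem_SL φ hN hinj).1 hv, ?_, ?_⟩
    · apply hinj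
      rw [map_mul, map_star]; exact hv1
    · apply hinj
      rw [map_mul]; exact hv2
  half := by
    intro l hl
    obtain ⟨h1, h2⟩ := facTr_SL φ h hN hinj hl
    obtain ⟨e, he, hep, het⟩ := h1.half h2
    obtain ⟨e', rfl⟩ := hsurj e (SL_sub φ he)
    refine ⟨e', (mem_SL φ hN hinj).1 he, ⟨?_, ?_⟩, het⟩
    · apply hinj
      rw [map_mul]; exact hep.isIdempotentElem.eq
    · apply hinj
      rw [map_star]; exact hep.isSelfAdjoint.star_eq

end

/-- OFFER 3 -/
theorem VN2.good {H : Type} [NormedAddCommGroup H] [InnerProductSpace ℂ H] [CompleteSpace H]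
    {N : VonNeumannAlgebra H} {τ : (H →L[ℂ] H) →ₗ[ℂ] ℂ} (h : VN2 N τ) :
    ∃ (A : Type) (_ : CStarAlgebra A) (φ : A →⋆ₐ[ℂ] (H →L[ℂ] H)), Function.Injective φ ∧
      (∀ a, φ a ∈ N) ∧ (∀ x : H →L[ℂ] H, x ∈ N → ∃ a, φ a = x) ∧
      Tr (τ ∘ₗ (φ : A →ₗ[ℂ] (H →L[ℂ] H))) ∧ GoodAlg (τ ∘ₗ (φ : A →ₗ[ℂ] (H →L[ℂ] H))) := by
  have hcl : IsClosed ((N.toStarSubalgebra : StarSubalgebra ℂ (H →L[ℂ] H)) : Set (H →L[ℂ] H)) := by
    have h1 : ((N.toStarSubalgebra : StarSubalgebra ℂ (H →L[ℂ] H)) : Set (H →L[ℂ] H)) =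
        Set.centralizer (Set.centralizer (N : Set (H →L[ℂ] H))) := by
      rw [VonNeumannAlgebra.centralizer_centralizer]; rfl
    rw [h1]
    exact Set.isClosed_centralizer _
  let _ := StarSubalgebra.cstarAlgebra N.toStarSubalgebra (h_closed := hcl)
  have h1 : Function.Injective (N.toStarSubalgebra.subtype) := Subtype.val_injective
  have h2 : ∀ a, N.toStarSubalgebra.subtype a ∈ N := fun a => a.2
  have h3 : ∀ x : H →L[ℂ] H, x ∈ N → ∃ a, N.toStarSubalgebra.subtype a = x :=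
    fun x hx => ⟨⟨x, hx⟩, rfl⟩
  exact ⟨N.toStarSubalgebra, StarSubalgebra.cstarAlgebra N.toStarSubalgebra (h_closed := hcl),
    N.toStarSubalgebra.subtype, h1, h2, h3, good_tr _ h h2 h1, good_alg _ h h2 h1 h3⟩

end Pool.Agent.Helper67.FacTrLib
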