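import Pool.Agent.Helper19.GBase
set_option autoImplicit false
set_option linter.unusedSectionVars false
open scoped ComplexOrder

namespace Pool.Agent.Helper67.FacTrLib

open Pool.Agent.Helper19.Gam

variable {A : Type} [CStarAlgebra A] {τ : A →ₗ[ℂ] ℂ}

theorem tau_sum_zero {C : Type} (g : C → A) (ε : C → ℂ) (s : Finset C) (x : A)
    (h : ∀ c ∈ s, τ (star (g c) * x) = 0) :
    τ (star (∑ c ∈ s, ε c • g c) * x) = 0 := by
  rw [star_sum, Finset.sum_mul, map_sum]
  refine Finset.sum_eq_zero (fun c hc => ?_)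
  rw [star_smul, smul_mul_assoc, map_smul, h c hc, smul_zero]

theorem n2_sum_sq (hτ : Tr τ) {C : Type} (g : C → A) (hg : ∀ c, ‖g c‖ ≤ 1)
    (horth : ∀ c c', c ≠ c' → τ (star (g c) * g c') = 0) (ε : C → ℂ)
    (hε : ∀ c, ε c = 1 ∨ ε c = -1) (s : Finset C) :
    n2 τ (∑ c ∈ s, ε c • g c) ^ 2 ≤ s.card := by
  classical
  induction s using Finset.induction_on with
  | empty => simp [n2_zero hτ]
  | insert c s hc ih =>
    rw [Finset.sum_insert hc, add_comm, n2_add_sq hτ, Finset.card_insert_of_notMem hc]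
    have h1 : τ (star (∑ c ∈ s, ε c • g c) * (ε c • g c)) = 0 := by
      rw [mul_smul_comm, map_smul, tau_sum_zero g ε s (g c), smul_zero]
      intro c' hc'
      exact horth _ _ (fun h => hc (h ▸ hc'))
    have h2 : ‖ε c‖ = 1 := by rcases hε c with h | h <;> rw [h] <;> simp
    have h3 : n2 τ (ε c • g c) ^ 2 ≤ 1 := by
      rw [n2_smul hτ, h2, one_mul]
      have h4 := n2_le_norm hτ (g c)
      have h5 := n2_nonneg hτ (g c)
      have h6 := hg c
      nlinarith
    rw [h1]
    push_cast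
    simp only [Complex.zero_re, mul_zero, add_zero]
    linarith

/-- the fourth moment -/
noncomputable def F4 (τ : A →ₗ[ℂ] ℂ) (X : A) : ℝ := (τ ((star X * X) * (star X * X))).re

/-- one step -/
theorem F4_step (hτ : Tr τ) (X g : A) (hg : ‖g‖ ≤ 1) :
    ∃ e : ℂ, (e = 1 ∨ e = -1) ∧ F4 τ (X + e • g) ≤ F4 τ X + 6 * n2 τ X ^ 2 + 1 := by
  set Hh : A := star X * X with hH
  set G : A := star g * g with hG
  set T : A := star X * g + star g * X with hT
  have hTs : star T = T := by rw [hT, star_add, star_mul, star_mul, star_star, star_star]; abel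
  have e1 : F4 τ (X + (1:ℂ) • g) = (τ ((Hh + G + T) * (Hh + G + T))).re := by
    unfold F4
    have : star (X + (1:ℂ) • g) * (X + (1:ℂ) • g) = Hh + G + T := by
      rw [one_smul, star_add, hH, hG, hT]; noncomm_ring
    rw [this]
  have e2 : F4 τ (X + (-1:ℂ) • g) = (τ ((Hh + G - T) * (Hh + G - T))).re := by
    unfold F4
    have : star (X + (-1:ℂ) • g) * (X + (-1:ℂ) • g) = Hh + G - T := by
      rw [neg_one_smul, star_add, star_neg, hH, hG, hT]; noncomm_ring
    rw [this]
  have e3 : (τ ((Hh + G + T) * (Hh + G + T))).re + (τ ((Hh + G - T) * (Hh + G - T))).re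
      = 2 * (F4 τ X + 2 * (τ (Hh * G)).re + (τ (G * G)).re + (τ (T * T)).re) := by
    have h1 : (Hh + G + T) * (Hh + G + T) + (Hh + G - T) * (Hh + G - T) =
      (2:ℂ) • (Hh * Hh + Hh * G + G * Hh + G * G + T * T) := by
      rw [two_smul]; noncomm_ring
    have h2 := congrArg (fun z => (τ z).re) h1
    simp only [map_add, map_smul, smul_eq_mul, Complex.add_re] at h2
    rw [h2, hτ.comm G Hh]
    have h3 : ∀ z : ℂ, ((2:ℂ) * z).re = 2 * z.re := by
      intro z; simp
    rw [h3]
    simp only [Complex.add_re]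
    unfold F4
    rw [← hH]
    ring
  have b1 : (τ (Hh * G)).re ≤ n2 τ X ^ 2 := by
    have h1 : τ (Hh * G) = τ (star (X * star g) * (X * star g)) := by
      rw [hH, hG, star_mul, star_star, ← mul_assoc, hτ.comm (star X * X * star g) g]
      congr 1; noncomm_ring
    rw [h1, ← n2_sq hτ]
    have h2 := n2_mul_right hτ X (star g)
    rw [norm_star] at h2
    have h3 := n2_nonneg hτ X
    have h4 := n2_nonneg hτ (X * star g)
    have h5 : n2 τ (X * star g) ≤ n2 τ X := h2.trans (by nlinarith)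
    nlinarith
  have b2 : (τ (G * G)).re ≤ 1 := by
    have h0 : star G = G := by rw [hG, star_mul, star_star]
    have h1 : τ (G * G) = τ (star G * G) := by rw [h0]
    rw [h1, ← n2_sq hτ]
    have h2 := n2_le_norm hτ G
    have h3 : ‖G‖ ≤ 1 := by
      rw [hG, CStarRing.norm_star_mul_self]
      nlinarith [norm_nonneg g]
    have h4 := n2_nonneg hτ G
    nlinarith
  have b3 : (τ (T * T)).re ≤ 4 * n2 τ X ^ 2 := by
    have h1 : τ (T * T) = τ (star T * T) := by rw [hTs]
    rw [h1, ← n2_sq hτ]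
    have h2 := n2_add hτ (star X * g) (star g * X)
    have h3 := n2_mul_right hτ (star X) g
    have h4 := n2_mul_left hτ (star g) X
    rw [n2_star hτ] at h3
    rw [norm_star] at h4
    have h5 := n2_nonneg hτ X
    have h6 : n2 τ T ≤ 2 * n2 τ X := by
      rw [← hT] at h2
      nlinarith
    have h7 := n2_nonneg hτ T
    nlinarith
  by_contra hc
  push Not at hc
  have c1 := hc 1 (Or.inl rfl)
  have c2 := hc (-1) (Or.inr rfl)
  rw [e1] at c1
  rw [e2] at c2
  linarith

/-- OFFER 4a: greedy signs -/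
theorem greedy (hτ : Tr τ) {C : Type} (g : C → A) (hg : ∀ c, ‖g c‖ ≤ 1)
    (horth : ∀ c c', c ≠ c' → τ (star (g c) * g c') = 0) (s : Finset C) :
    ∃ ε : C → ℂ, (∀ c, ε c = 1 ∨ ε c = -1) ∧
      (τ ((star (∑ c ∈ s, ε c • g c) * (∑ c ∈ s, ε c • g c)) *
        (star (∑ c ∈ s, ε c • g c) * (∑ c ∈ s, ε c • g c)))).re ≤ 3 * (s.card : ℝ) ^ 2 := by
  classical
  induction s using Finset.induction_on with
  | empty => exact ⟨fun _ => 1, fun _ => Or.inl rfl, by simp⟩
  | insert c s hc ih =>
    obtain ⟨ε, hε, hF⟩ := ih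
    obtain ⟨e, he, hstep⟩ := F4_step hτ (∑ c ∈ s, ε c • g c) (g c) (hg c)
    have hn := n2_sum_sq hτ g hg horth ε hε s
    refine ⟨Function.update ε c e, ?_, ?_⟩
    · intro c'
      by_cases h : c' = c
      · subst h; rw [Function.update_self]; exact he
      · rw [Function.update_of_ne h]; exact hε c'
    · have h1 : ∑ c' ∈ insert c s, (Function.update ε c e) c' • g c' =
          (∑ c ∈ s, ε c • g c) + e • g c := by
        rw [Finset.sum_insert hc, Function.update_self, add_comm]
        congr 1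
        refine Finset.sum_congr rfl (fun c' hc' => ?_)
        rw [Function.update_of_ne (show c' ≠ c from fun h => hc (h ▸ hc'))]
      rw [h1, Finset.card_insert_of_notMem hc]
      have h2 : F4 τ ((∑ c ∈ s, ε c • g c) + e • g c) =
        (τ ((star ((∑ c ∈ s, ε c • g c) + e • g c) * ((∑ c ∈ s, ε c • g c) + e • g c)) *
        (star ((∑ c ∈ s, ε c • g c) + e • g c) * ((∑ c ∈ s, ε c • g c) + e • g c)))).re := rfl
      have h3 : F4 τ (∑ c ∈ s, ε c • g c) ≤ 3 * (s.card : ℝ) ^ 2 := hF
      rw [← h2]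
      push_cast
      nlinarith

/-- OFFER 4b: truncation -/
theorem truncate (hτ : Tr τ) {X : A} {B R : ℝ} (hR : 0 < R)
    (hX : (τ ((star X * X) * (star X * X))).re ≤ B) :
    ∃ X' : A, ‖X'‖ ≤ R / 2 ∧ n2 τ (X - X') ^ 2 ≤ B / (4 * R ^ 2) := by
  set h : A := star X * X with hh
  have hsa : IsSelfAdjoint h := IsSelfAdjoint.star_mul_self X
  set g : ℝ → ℝ := fun t => (1 + |t| / R ^ 2)⁻¹ with hg
  have hden : ∀ t : ℝ, 0 < 1 + |t| / R ^ 2 := fun t => by positivity
  have hgc : Continuous g := by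
    apply Continuous.inv₀ (by fun_prop)
    intro t; exact (hden t).ne'
  have habs : cfc (fun t : ℝ => |t|) h = h := by
    have h1 : cfc (fun t : ℝ => |t|) h = cfc (fun t : ℝ => t) h := by
      apply cfc_congr
      intro t ht
      exact abs_of_nonneg (spectrum_star_mul_self_nonneg t ht)
    rw [h1, cfc_id' ℝ h]
  set c0 : A := cfc g h with hc0
  have hc0s : star c0 = c0 := (cfc_predicate (p := IsSelfAdjoint) _ h)
  have key : ∀ f : ℝ → ℝ, Continuous f → star (X * cfc f h) * (X * cfc f h) =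
      cfc (fun t => |t| * f t ^ 2) h := by
    intro f hf
    have hs : star (cfc f h) = cfc f h := (cfc_predicate (p := IsSelfAdjoint) _ h)
    have h2 : star (X * cfc f h) * (X * cfc f h) = cfc f h * h * cfc f h := by
      rw [star_mul, hs, hh]; noncomm_ring
    rw [h2]
    conv_lhs => rw [← habs]
    rw [habs]
    rw [show cfc f h * h * cfc f h = cfc f h * cfc (fun t : ℝ => |t|) h * cfc f h by rw [habs]]
    rw [← cfc_mul _ _ h hf.continuousOn (by fun_prop), ← cfc_mul _ _ h _ hf.continuousOn]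
    · congr 1; ext t; ring
    · exact (hf.mul continuous_abs).continuousOn
  refine ⟨X * c0, ?_, ?_⟩
  · have h1 : ‖X * c0‖ * ‖X * c0‖ ≤ (R / 2) * (R / 2) := by
      rw [← CStarRing.norm_star_mul_self, hc0, key g hgc]
      apply norm_cfc_le (by positivity)
      intro t _
      have h0 := hden t
      rw [Real.norm_eq_abs, abs_of_nonneg (by positivity), hg]
      simp only []
      rw [inv_pow, ← div_eq_mul_inv, div_le_iff₀ (by positivity)]
      have h3 : |t| = R ^ 2 * (|t| / R ^ 2) := by field_simp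
      set y := |t| / R ^ 2 with hy
      have hy0 : 0 ≤ y := by positivity
      rw [h3]
      nlinarith [mul_nonneg (sq_nonneg R) (sq_nonneg (1 - y))]
    nlinarith [norm_nonneg (X * c0)]
  · have h1 : X - X * c0 = X * cfc (fun t => 1 - g t) h := by
      rw [cfc_sub (fun _ => (1:ℝ)) g h (by fun_prop) hgc.continuousOn, cfc_const_one ℝ h, mul_sub,
        mul_one]
    have hgc' : Continuous (fun t => 1 - g t) := by fun_prop
    rw [n2_sq hτ, h1, key _ hgc']
    have hfc : Continuous (fun t : ℝ => |t| * (1 - g t) ^ 2) := by fun_prop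
    set k : ℝ → ℝ := fun t => (1 / (4 * R ^ 2)) * t ^ 2 - |t| * (1 - g t) ^ 2 with hk
    have hkc : Continuous k := by
      rw [hk]; fun_prop
    have hk0 : ∀ t, 0 ≤ k t := by
      intro t
      have h0 := hden t
      rw [hk, hg]
      simp only []
      rw [sub_nonneg]
      have h3 : |t| = R ^ 2 * (|t| / R ^ 2) := by field_simp
      have h4 : t ^ 2 = |t| ^ 2 := (sq_abs t).symm
      set y := |t| / R ^ 2 with hy
      have hy0 : 0 ≤ y := by positivity
      rw [h4, h3]
      have h5 : 1 - (1 + y)⁻¹ = y / (1 + y) := by field_simp; ring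
      rw [h5, div_pow, ← mul_div_assoc, div_le_iff₀ (by positivity)]
      have h6 : (1 / (4 * R ^ 2) * (R ^ 2 * y) ^ 2) * (1 + y) ^ 2 - R ^ 2 * y * y ^ 2 =
        R ^ 2 * y ^ 2 * (1 - y) ^ 2 / 4 := by field_simp; ring
      have h7 : 0 ≤ R ^ 2 * y ^ 2 * (1 - y) ^ 2 / 4 := by positivity
      linarith
    have hsq : 0 ≤ (τ (cfc k h)).re := by
      have h2 : cfc k h = star (cfc (fun t => Real.sqrt (k t)) h) * cfc (fun t => Real.sqrt (k t)) h := by
        have hs : star (cfc (fun t => Real.sqrt (k t)) h) = cfc (fun t => Real.sqrt (k t)) h :=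
          (cfc_predicate (p := IsSelfAdjoint) _ h)
        rw [hs, ← cfc_mul _ _ h hkc.sqrt.continuousOn hkc.sqrt.continuousOn]
        congr 1; ext t
        exact (Real.mul_self_sqrt (hk0 t)).symm
      rw [h2]
      exact (Complex.nonneg_iff.1 (hτ.nonneg _)).1
    have h3 : cfc k h = ((1 / (4 * R ^ 2) : ℝ) : ℂ) • (h * h) - cfc (fun t => |t| * (1 - g t) ^ 2) h := by
      rw [hk, cfc_sub _ _ h (by fun_prop) hfc.continuousOn]
      congr 1
      rw [cfc_const_mul _ _ h (by fun_prop), cfc_pow_id h 2, show h ^ 2 = h * h from pow_two h]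
      rfl
    rw [h3, map_sub, map_smul, smul_eq_mul, Complex.sub_re, Complex.re_ofReal_mul] at hsq
    have h4 : 1 / (4 * R ^ 2) * (τ (h * h)).re ≤ B / (4 * R ^ 2) := by
      rw [div_mul_eq_mul_div, one_mul]
      exact div_le_div_of_nonneg_right hX (by positivity)
    linarith

end Pool.Agent.Helper67.FacTrLib
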